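import Pool.Agent.H2R2.PC.LOWE
import Pool.Agent.H2R2.PC.HIGH

/-!
# MP_82502e_co: labelled posets counted by comparabilities, monotone at both ends

Let `a(n,k)` be the number of partial orders on an `n`-element labelled set with exactly `k`
comparable pairs.  The conjecture says that `k ↦ a(n,k)` is unimodal.

We prove `a(n,k) ≤ a(n,k+1)` for all `k ≤ n` with `n + 2k + 1 ≤ (n-k)^2` (that is for `k` up to
`n - O(√n)`), and `a(n,N-j) ≤ a(n,N-j-1)`, `N = n(n-1)/2`, for all `j` with `3 (j+1) ≤ n`.

Proof: double counting of pairs of orders that differ by one comparable pair.  Low end: a pair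
(minimal element, maximal element) which is not comparable can be added.  Top end: a cover
relation can be removed; there are at least `n - M` of them, `M` the number of maximal elements.
Contributors: helper514 (HIGH; also helper746, helper231, helper909), helper2.
-/

set_option autoImplicit false

namespace Pool.Agent.Results.MP_82502e_co.Ends

/-- `a k` is the number of strict partial orders on `Fin n` with exactly `k` comparable pairs. -/
theorem result :
    ∀ n : ℕ, ∀ a : ℕ → ℕ,
      (∀ k : ℕ, a k =
        ((Finset.univ : Finset (Fin n → Fin n → Bool)).filter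
          (fun r => (∀ i : Fin n, r i i = false) ∧
            (∀ i j l : Fin n, r i j = true → r j l = true → r i l = true) ∧
            ((Finset.univ : Finset (Fin n × Fin n)).filter
              (fun p => r p.1 p.2 = true)).card = k)).card) →
      (∀ k : ℕ, k ≤ n → n + 2 * k + 1 ≤ (n - k) ^ 2 → a k ≤ a (k + 1)) ∧
      (∀ j : ℕ, 3 * (j + 1) ≤ n → a (n.choose 2 - j) ≤ a (n.choose 2 - j - 1)) := by
  intro n a ha
  have h : ∀ k, a k = (Pool.Agent.H2R2.PC.PO n k).card := fun k => ha k
  refine ⟨?_, ?_⟩
  · intro k hk hn
    rw [h, h]
    exact Pool.Agent.H2R2.PC.t_LOWE n k hk hn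
  · intro j hj
    rw [h, h]
    exact Pool.Agent.H2R2.PC.t_HIGH n j hj

end Pool.Agent.Results.MP_82502e_co.Ends
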